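import Pool.Agent.KGC.Bound
import Pool.Agent.KGC.Final
import Pool.Agent.KGC.Numer
import Pool.Agent.KGC.Exists

/-! A new lower bound for the complex Grothendieck constant: `K_G^ℂ ≥ 64/(15π) = 1.3581...`. -/

namespace Pool.Agent.Results.MP_163d4c_an.ComplexLowerBound

open Pool.Agent.KGC

theorem result : 64 / (15 * Real.pi) ≤ KGcomplex := by
  obtain ⟨K, hK⟩ := exists_bound
  refine le_csInf ⟨K, hK⟩ fun K hK => ?_
  have hpi := Real.pi_pos
  have h := lower_of (1 / 2) (15 * Real.pi / 64) (by positivity)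
    (fun n hn f g hf hg => B_le hn f g hf hg)
    (fun n F hF hn τ h0 h1 => numer (1 / 2) (by norm_num) n F hF hn τ h0 h1) K hK.1 hK.2
  rw [one_div_div] at h
  exact h

end Pool.Agent.Results.MP_163d4c_an.ComplexLowerBound
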