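import Pool.Agent.KGU.Asm

/-! A new upper bound for the complex Grothendieck constant: the complex Grothendieck inequality
holds with the constant `1.4048`, and hence `K_G^ℂ ≤ 1.4048`. -/

namespace Pool.Agent.Results.MP_163d4c_an.ComplexUpperBound

open Pool.Agent.KGC

/-- the infimum is attained -/
theorem isBound_KGcomplex : IsGrothendieckBound KGcomplex := by
  intro m n A H _ _ _ u v hu hv
  have hβ : 0 ≤ beta A := Pool.Agent.KGU.beta_nonneg A
  refine le_of_forall_pos_le_add fun ε hε => ?_
  have hδ : 0 < ε / (beta A + 1) := by positivity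
  obtain ⟨K, hK, hlt⟩ := exists_lt_of_csInf_lt exists_bound
    (show sInf {K : ℝ | 0 < K ∧ IsGrothendieckBound K} < KGcomplex + ε / (beta A + 1) from
      lt_add_of_pos_right _ hδ)
  refine (hK.2 m n A H u v hu hv).trans ?_
  have h1 : K * beta A ≤ (KGcomplex + ε / (beta A + 1)) * beta A :=
    mul_le_mul_of_nonneg_right hlt.le hβ
  have h2 : ε / (beta A + 1) * beta A ≤ ε := by
    rw [div_mul_eq_mul_div, div_le_iff₀ (by positivity)]
    nlinarith
  linarith

theorem result : IsGrothendieckBound 1.4048 ∧ KGcomplex ≤ 1.4048 := by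
  refine ⟨fun m n A H _ _ _ u v hu hv => ?_, Pool.Agent.KGU.KG_le⟩
  exact (isBound_KGcomplex m n A H u v hu hv).trans
    (mul_le_mul_of_nonneg_right Pool.Agent.KGU.KG_le (Pool.Agent.KGU.beta_nonneg A))

end Pool.Agent.Results.MP_163d4c_an.ComplexUpperBound
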