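import Pool.Agent.KG.FiveEighths
import Pool.Agent.KG.Pentagon
import Pool.Agent.KG.Krivine

/-! A new lower bound for the real Grothendieck constant: `K_G^ℝ ≥ 24π/43 = 1.7534...`. -/

namespace Pool.Agent.Results.MP_163d4c_an.RealLowerBound

open Pool.Agent.KG

theorem result : 24 * Real.pi / 43 ≤ KG := by
  obtain ⟨K, hK⟩ := exists_bound
  refine le_csInf ⟨K, hK⟩ fun K hK => ?_
  have h := KG_ge_of_B_le (5 / 8) (by norm_num) (by norm_num)
    (fun n hn f g hf hg => B_le_five_eighths (fun n v hv => pent v hv) n hn f g hf hg) K hK.1 hK.2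
  have e : 3 * Real.pi / (6 - 5 / 8) = 24 * Real.pi / 43 := by
    field_simp
    ring
  rw [e] at h
  exact h

end Pool.Agent.Results.MP_163d4c_an.RealLowerBound
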