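import Pool.Agent.KR23.Final

/-! A new upper bound for the real Grothendieck constant: Grothendieck's inequality holds with the
constant `1.78136`, and hence `K_G^ℝ ≤ 1.78136`. -/

namespace Pool.Agent.Results.MP_163d4c_an.RealUpperBound

open Pool.Agent.KG

theorem result : IsGrothendieckBound 1.78136 ∧ KG ≤ 1.78136 := by
  have h : IsGrothendieckBound 1.78136 := by
    have h0 := Pool.Agent.KR23.grothendieck_178136
    norm_num at h0 ⊢
    exact h0
  exact ⟨h, csInf_le ⟨0, fun K hK => hK.1.le⟩ ⟨by norm_num, h⟩⟩

end Pool.Agent.Results.MP_163d4c_an.RealUpperBound
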